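import Pool.Agent.Y234.EM.Stm

set_option autoImplicit false

/-!
# Project EM, the statement CUT: open and closed subschemes of smoothable schemes
-/

namespace Pool.Agent.Y405.EM

open Pool.Agent.H826R3.SM
open scoped TensorProduct PowerSeries

section Complete

variable {R : Type} [CommRing R] {M : Type} [AddCommGroup M] [Module R M]

lemma mem_pow_smul_top (x : R) (n : ℕ) (m : M) :
    m ∈ (Ideal.span {x} ^ n • ⊤ : Submodule R M) ↔ ∃ m' : M, m = x ^ n • m' := by
  rw [Ideal.span_singleton_pow, Submodule.ideal_span_singleton_smul,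
    Submodule.mem_smul_pointwise_iff_exists]
  constructor
  · rintro ⟨a, -, h⟩
    exact ⟨a, h.symm⟩
  · rintro ⟨a, h⟩
    exact ⟨a, trivial, h.symm⟩

lemma complete_of_basis (x : R) [IsAdicComplete (Ideal.span {x}) R] {n : ℕ}
    (b : Module.Basis (Fin n) R M) : IsAdicComplete (Ideal.span {x}) M where
  haus' := by
    intro m hm
    apply b.ext_elem
    intro i
    rw [map_zero, Finsupp.zero_apply]
    apply IsHausdorff.haus (inferInstance : IsHausdorff (Ideal.span {x}) R)
    intro N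
    rw [SModEq.zero, mem_pow_smul_top]
    obtain ⟨m', h⟩ := (mem_pow_smul_top x N m).mp (SModEq.zero.mp (hm N))
    refine ⟨b.repr m' i, ?_⟩
    rw [h, map_smul]
    rfl
  prec' := by
    intro f hf
    have h1 : ∀ i, ∃ L : R, ∀ N,
        b.repr (f N) i ≡ L [SMOD (Ideal.span {x} ^ N • ⊤ : Submodule R R)] := by
      intro i
      apply IsPrecomplete.prec (inferInstance : IsPrecomplete (Ideal.span {x}) R)
      intro m n hmn
      have h2 := hf hmn
      rw [SModEq.sub_mem, mem_pow_smul_top] at h2 ⊢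
      obtain ⟨m', h⟩ := h2
      refine ⟨b.repr m' i, ?_⟩
      rw [← Finsupp.sub_apply, ← map_sub, h, map_smul]
      rfl
    choose L hL using h1
    refine ⟨∑ i, L i • b i, fun N => ?_⟩
    rw [SModEq.sub_mem, mem_pow_smul_top]
    have h3 : ∀ i, ∃ r : R, b.repr (f N) i - L i = x ^ N • r := fun i =>
      (mem_pow_smul_top x N _).mp (SModEq.sub_mem.mp (hL i N))
    choose r hr using h3
    refine ⟨∑ i, r i • b i, ?_⟩
    conv_lhs => rw [← b.sum_repr (f N)]
    rw [← Finset.sum_sub_distrib, Finset.smul_sum]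
    refine Finset.sum_congr rfl fun i _ => ?_
    rw [← sub_smul, hr, smul_eq_mul, mul_smul]

end Complete

section Idem

open Polynomial in
/-- Idempotents lift. -/
lemma exists_idem {A : Type} [CommRing A] (I : Ideal A) [HenselianRing A I] (a : A)
    (ha : a * a - a ∈ I) : ∃ E : A, E * E = E ∧ E - a ∈ I := by
  have hm : (X ^ 2 - X : A[X]).Monic := by
    have h1 : (X ^ 2 - X : A[X]) = X * (X - C 1) := by
      rw [C_1]
      ring
    rw [h1]
    exact monic_X.mul (monic_X_sub_C 1)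
  have h0 : (X ^ 2 - X : A[X]).eval a ∈ I := by
    rw [eval_sub, eval_pow, eval_X, pow_two]
    exact ha
  have hu : IsUnit (Ideal.Quotient.mk I ((derivative (X ^ 2 - X : A[X])).eval a)) := by
    have h1 : Ideal.Quotient.mk I a * Ideal.Quotient.mk I a = Ideal.Quotient.mk I a := by
      rw [← sub_eq_zero, ← map_mul, ← map_sub]
      exact Ideal.Quotient.eq_zero_iff_mem.mpr ha
    have h2 : Ideal.Quotient.mk I ((derivative (X ^ 2 - X : A[X])).eval a) =
        2 * Ideal.Quotient.mk I a - 1 := by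
      rw [derivative_sub, derivative_X_sq, derivative_X, eval_sub, eval_one, eval_mul, eval_C,
        eval_X, map_sub, map_one, map_mul]
      rfl
    rw [h2]
    refine IsUnit.of_mul_eq_one (2 * Ideal.Quotient.mk I a - 1) ?_
    linear_combination 4 * h1
  obtain ⟨E, hE, hE2⟩ := HenselianRing.is_henselian _ hm a h0 hu
  refine ⟨E, ?_, hE2⟩
  have h3 : eval E (X ^ 2 - X : A[X]) = 0 := hE
  rw [eval_sub, eval_pow, eval_X, pow_two] at h3
  exact sub_eq_zero.mp h3

variable {R : Type} [CommRing R] {A : Type} [CommRing A] [Algebra R A] {E : A}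

lemma mem_cut (hE : E * E = E) (a : A) : a ∈ Ideal.span {1 - E} ↔ E * a = 0 := by
  rw [Ideal.mem_span_singleton]
  constructor
  · rintro ⟨c, rfl⟩
    linear_combination (-c) * hE
  · intro h
    exact ⟨a, by linear_combination h⟩

/-- The section `a ↦ E a`. -/
noncomputable def sec (R : Type) [CommRing R] [Algebra R A] (hE : E * E = E) :
    (A ⧸ Ideal.span {1 - E}) →ₗ[R] A :=
  LinearMap.restrictScalars R (Submodule.liftQ (Ideal.span {1 - E}) (LinearMap.mulLeft A E)
    (fun a ha => (mem_cut hE a).mp ha))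

lemma sec_mk (hE : E * E = E) (a : A) :
    sec R hE (Ideal.Quotient.mk (Ideal.span {1 - E}) a) = E * a := rfl

lemma mk_sec (hE : E * E = E) (x : A ⧸ Ideal.span {1 - E}) :
    Ideal.Quotient.mkₐ R (Ideal.span {1 - E}) (sec R hE x) = x := by
  obtain ⟨a, rfl⟩ := Ideal.Quotient.mk_surjective x
  rw [sec_mk, Ideal.Quotient.mkₐ_eq_mk, Ideal.Quotient.eq, mem_cut hE]
  linear_combination a * hE

lemma proj_cut (hE : E * E = E) [Module.Projective R A] :
    Module.Projective R (A ⧸ Ideal.span {1 - E}) := by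
  refine Module.Projective.of_split (sec R hE)
    (Ideal.Quotient.mkₐ R (Ideal.span {1 - E})).toLinearMap ?_
  refine LinearMap.ext fun x => ?_
  exact mk_sec hE x

lemma red_cut (hE : E * E = E) (L : Type) [CommRing L] [Algebra R L]
    (h : IsReduced (L ⊗[R] A)) : IsReduced (L ⊗[R] (A ⧸ Ideal.span {1 - E})) := by
  have hS : ∀ y : L ⊗[R] A, (sec R hE).lTensor L (Algebra.TensorProduct.map (AlgHom.id L L)
      (Ideal.Quotient.mkₐ R (Ideal.span {1 - E})) y) = (1 ⊗ₜ[R] E) * y := by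
    intro y
    induction y with
    | zero => simp only [map_zero, mul_zero]
    | tmul l a =>
      rw [Algebra.TensorProduct.map_tmul, LinearMap.lTensor_tmul,
        Algebra.TensorProduct.tmul_mul_tmul, one_mul, Ideal.Quotient.mkₐ_eq_mk, sec_mk]
      rfl
    | add x y hx hy => rw [map_add, map_add, hx, hy, mul_add]
  have hQs : Function.Surjective (Algebra.TensorProduct.map (AlgHom.id L L)
      (Ideal.Quotient.mkₐ R (Ideal.span {1 - E}))) := by
    intro x
    induction x with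
    | zero => exact ⟨0, map_zero _⟩
    | tmul l a =>
      obtain ⟨a, rfl⟩ := Ideal.Quotient.mk_surjective a
      exact ⟨l ⊗ₜ[R] a, by rw [Algebra.TensorProduct.map_tmul]; rfl⟩
    | add x y hx hy =>
      obtain ⟨x, rfl⟩ := hx
      obtain ⟨y, rfl⟩ := hy
      exact ⟨x + y, map_add _ _ _⟩
  have hQE : Algebra.TensorProduct.map (AlgHom.id L L)
      (Ideal.Quotient.mkₐ R (Ideal.span {1 - E})) (1 ⊗ₜ[R] E) = 1 := by
    have h1 : Ideal.Quotient.mkₐ R (Ideal.span {1 - E}) E = 1 := by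
      rw [Ideal.Quotient.mkₐ_eq_mk, ← map_one (Ideal.Quotient.mk (Ideal.span {1 - E})),
        Ideal.Quotient.eq, mem_cut hE]
      linear_combination hE
    rw [Algebra.TensorProduct.map_tmul, h1]
    rfl
  have hEE : (1 ⊗ₜ[R] E : L ⊗[R] A) * (1 ⊗ₜ[R] E) = 1 ⊗ₜ[R] E := by
    rw [Algebra.TensorProduct.tmul_mul_tmul, one_mul, hE]
  rw [isReduced_iff_pow_one_lt 2 one_lt_two]
  intro x hx
  obtain ⟨y, rfl⟩ := hQs x
  have h1 : (1 ⊗ₜ[R] E) * y ^ 2 = (0 : L ⊗[R] A) := by
    rw [← hS, map_pow, hx, map_zero]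
  have h2 : ((1 ⊗ₜ[R] E) * y) ^ 2 = (0 : L ⊗[R] A) := by
    rw [mul_pow, pow_two (1 ⊗ₜ[R] E : L ⊗[R] A), hEE, h1]
  have h3 : (1 ⊗ₜ[R] E) * y = (0 : L ⊗[R] A) := pow_eq_zero_iff two_ne_zero |>.mp h2
  rw [← one_mul (Algebra.TensorProduct.map (AlgHom.id L L)
      (Ideal.Quotient.mkₐ R (Ideal.span {1 - E})) y), ← hQE, ← map_mul, h3, map_zero]

end Idem

theorem cut : Pool.Agent.Y234.EM.S_CUT := by
  intro k B _ _ _ _ e he hF
  obtain ⟨𝒜, cA, aA, hfin, hfree, hred, hrk, π, hπ, hπc⟩ := hF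
  -- a basis of the family
  let b := Module.finBasis k⟦X⟧ 𝒜
  have hspan : (⊤ : Submodule k B) ≤ Submodule.span k (Set.range fun i => π (b i)) := by
    intro y _
    obtain ⟨a, rfl⟩ := hπ y
    rw [← b.sum_repr a, map_sum]
    refine Submodule.sum_mem _ fun i _ => ?_
    rw [Algebra.smul_def, map_mul, hπc, ← Algebra.smul_def]
    exact Submodule.smul_mem _ _ (Submodule.subset_span ⟨i, rfl⟩)
  have hli : LinearIndependent k fun i => π (b i) := by
    apply linearIndependent_of_top_le_span_of_card_eq_finrank hspan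
    rw [Fintype.card_fin]
    refine le_antisymm hrk ?_
    have := finrank_le_of_span_eq_top (eq_top_iff.mpr hspan)
    simpa using this
  -- the kernel
  have hker : ∀ a : 𝒜, π a = 0 → ∃ a' : 𝒜, a = (PowerSeries.X : k⟦X⟧) • a' := by
    intro a ha
    have h1 : ∑ i, PowerSeries.constantCoeff (b.repr a i) • π (b i) = 0 := by
      rw [← ha]
      conv_rhs => rw [← b.sum_repr a]
      rw [map_sum]
      refine Finset.sum_congr rfl fun i _ => ?_
      rw [Algebra.smul_def, Algebra.smul_def, map_mul, hπc]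
    have h2 := Fintype.linearIndependent_iff.mp hli _ h1
    have h3 : ∀ i, ∃ r : k⟦X⟧, b.repr a i = PowerSeries.X * r := fun i =>
      PowerSeries.X_dvd_iff.mpr (h2 i)
    choose r hr using h3
    refine ⟨∑ i, r i • b i, ?_⟩
    conv_lhs => rw [← b.sum_repr a]
    rw [Finset.smul_sum]
    refine Finset.sum_congr rfl fun i _ => ?_
    rw [hr, mul_smul]
  -- completeness
  have hc1 : IsAdicComplete (Ideal.span {(PowerSeries.X : k⟦X⟧)}) 𝒜 := complete_of_basis _ b
  have hc2 : IsAdicComplete ((Ideal.span {(PowerSeries.X : k⟦X⟧)}).map (algebraMap k⟦X⟧ 𝒜)) 𝒜 :=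
    { toIsHausdorff := IsHausdorff.map_algebraMap_iff.mpr hc1.toIsHausdorff
      toIsPrecomplete := IsPrecomplete.map_algebraMap_iff.mpr hc1.toIsPrecomplete }
  set I : Ideal 𝒜 := (Ideal.span {(PowerSeries.X : k⟦X⟧)}).map (algebraMap k⟦X⟧ 𝒜) with hI
  have hI2 : ∀ a : 𝒜, π a = 0 → a ∈ I := by
    intro a ha
    obtain ⟨a', rfl⟩ := hker a ha
    rw [Algebra.smul_def]
    exact I.mul_mem_right _ (Ideal.mem_map_of_mem _ (Ideal.mem_span_singleton_self _))
  have hI3 : ∀ a ∈ I, π a = 0 := by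
    intro a ha
    rw [hI, Ideal.map_span, Set.image_singleton, Ideal.mem_span_singleton] at ha
    obtain ⟨a', rfl⟩ := ha
    rw [map_mul, hπc, PowerSeries.constantCoeff_X, map_zero, zero_mul]
  -- lift the idempotent
  obtain ⟨a₀, ha₀⟩ := hπ e
  obtain ⟨E, hE, hE2⟩ := exists_idem I a₀ (hI2 _ (by rw [map_sub, map_mul, ha₀, he, sub_self]))
  have hEe : π E = e := by
    have := hI3 _ hE2
    rw [map_sub, ha₀] at this
    exact sub_eq_zero.mp this
  -- the new family
  let J : Ideal 𝒜 := Ideal.span {1 - E}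
  have hproj : Module.Projective k⟦X⟧ (𝒜 ⧸ J) := proj_cut hE
  have hfin' : Module.Finite k⟦X⟧ (𝒜 ⧸ J) := inferInstance
  have hfree' : Module.Free k⟦X⟧ (𝒜 ⧸ J) := Module.free_of_flat_of_isLocalRing
  have hred' : IsReduced (LL k ⊗[k⟦X⟧] (𝒜 ⧸ J)) := red_cut hE (LL k) hred
  -- the map to the special fibre
  have hJle : J ≤ (Ideal.span {1 - e}).comap π := by
    rw [Ideal.span_le, Set.singleton_subset_iff]
    change π (1 - E) ∈ Ideal.span {1 - e}
    rw [map_sub, map_one, hEe]
    exact Ideal.mem_span_singleton_self _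
  let ρ : (𝒜 ⧸ J) →+* (B ⧸ Ideal.span {1 - e}) := Ideal.quotientMap _ π hJle
  have hρ : ∀ a : 𝒜, ρ (Ideal.Quotient.mk J a) = Ideal.Quotient.mk _ (π a) := fun a => rfl
  have hρs : Function.Surjective ρ := by
    intro y
    obtain ⟨y, rfl⟩ := Ideal.Quotient.mk_surjective y
    obtain ⟨a, rfl⟩ := hπ y
    exact ⟨Ideal.Quotient.mk J a, hρ a⟩
  have hρc : ∀ c : k⟦X⟧, ρ (algebraMap k⟦X⟧ (𝒜 ⧸ J) c) =
      algebraMap k (B ⧸ Ideal.span {1 - e}) (PowerSeries.constantCoeff c) := by
    intro c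
    change ρ (Ideal.Quotient.mk J (algebraMap k⟦X⟧ 𝒜 c)) = _
    rw [hρ, hπc]
    rfl
  have hρker : ∀ x : 𝒜 ⧸ J, ρ x = 0 → ∃ x' : 𝒜 ⧸ J, x = (PowerSeries.X : k⟦X⟧) • x' := by
    intro x hx
    obtain ⟨a, rfl⟩ := Ideal.Quotient.mk_surjective x
    rw [hρ, Ideal.Quotient.eq_zero_iff_mem, Ideal.mem_span_singleton] at hx
    obtain ⟨y, hy⟩ := hx
    obtain ⟨c, rfl⟩ := hπ y
    obtain ⟨a', ha'⟩ := hker (a - (1 - E) * c) (by
      rw [map_sub, map_mul, map_sub, map_one, hEe, hy, sub_self])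
    refine ⟨Ideal.Quotient.mk J a', ?_⟩
    have h1 : a = (PowerSeries.X : k⟦X⟧) • a' + (1 - E) * c := by
      rw [← ha']
      ring
    conv_lhs => rw [h1]
    rw [map_add, Ideal.Quotient.eq_zero_iff_mem.mpr
      (J.mul_mem_right c (Ideal.mem_span_singleton_self _)), add_zero]
    rfl
  refine ⟨𝒜 ⧸ J, inferInstance, inferInstance, hfin', hfree', hred', ?_, ρ, hρs, hρc⟩
  -- the rank
  let b' := Module.finBasis k⟦X⟧ (𝒜 ⧸ J)
  have hli' : LinearIndependent k fun i => ρ (b' i) := by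
    rw [Fintype.linearIndependent_iff]
    intro g hg i
    obtain ⟨x', hx'⟩ := hρker (∑ i, (PowerSeries.C (g i) : k⟦X⟧) • b' i) (by
      rw [← hg, map_sum]
      refine Finset.sum_congr rfl fun i _ => ?_
      rw [Algebra.smul_def, map_mul, hρc, Algebra.smul_def, PowerSeries.constantCoeff_C])
    have h1 := congrArg (fun z => b'.repr z i) hx'
    simp only [map_smul, Finsupp.smul_apply, b'.repr_sum_self] at h1
    have h2 := congrArg (PowerSeries.constantCoeff (R := k)) h1
    simpa using h2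
  have h5 := hli'.fintype_card_le_finrank
  rwa [Fintype.card_fin] at h5

end Pool.Agent.Y405.EM
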